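import Mathlib

/-!
# MP_0e3340_nt: there are infinitely many admissible triples

For every `k ≥ 3` the triple `(2, 2 ^ k - 2, 2 ^ k * (2 ^ k - 2))` is admissible:
`c = 2 ^ k * b`, `c + 1 = (b + 1) ^ 2` and `b + 2 = 2 ^ k`.
-/

set_option autoImplicit false

namespace Pool.Agent.Results.MP_0e3340_nt.InfinitelyMany

/-- A tuple of nonzero integers `x` is multiplicatively dependent if there are integers `k i`, not all
zero, with `∏ i, x i ^ k i = 1`. -/
def MultDependent {n : ℕ} (x : Fin n → ℤ) : Prop :=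
  (∀ i, x i ≠ 0) ∧ ∃ k : Fin n → ℤ, (∃ i, k i ≠ 0) ∧ ∏ i, (x i : ℚ) ^ k i = 1

/-- The admissible triples: pairwise distinct integers larger than `1`, not both `2` and `8` among
them, such that `(a, b, c)`, `(a + 1, b + 1, c + 1)` and `(a + 2, b + 2, c + 2)` are all
multiplicatively dependent. -/
def Admissible (a b c : ℤ) : Prop :=
  (a ≠ b ∧ a ≠ c ∧ b ≠ c) ∧ (1 < a ∧ 1 < b ∧ 1 < c) ∧ ¬ (({2, 8} : Set ℤ) ⊆ {a, b, c}) ∧
    MultDependent ![a, b, c] ∧ MultDependent ![a + 1, b + 1, c + 1] ∧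
    MultDependent ![a + 2, b + 2, c + 2]

theorem family (k : ℕ) (hk : 3 ≤ k) :
    (2 : ℤ) < 2 ^ k - 2 ∧ (2 : ℤ) ^ k - 2 < 2 ^ k * (2 ^ k - 2) ∧
      Admissible 2 (2 ^ k - 2) (2 ^ k * (2 ^ k - 2)) := by
  obtain ⟨m, rfl⟩ : ∃ m, k = m + 3 := ⟨k - 3, by omega⟩
  have hp : (1 : ℤ) ≤ 2 ^ m := one_le_pow₀ (by norm_num)
  set P : ℤ := 2 ^ (m + 3) with hP
  have hP8 : P = 8 * 2 ^ m := by rw [hP, pow_add]; ring
  have h8 : 8 ≤ P := by rw [hP8]; linarith
  have hb : (2 : ℤ) < P - 2 := by linarith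
  have hc : P - 2 < P * (P - 2) := by nlinarith
  have hc8 : 48 ≤ P * (P - 2) := by nlinarith
  refine ⟨hb, hc, ⟨by omega, by omega, by omega⟩, ⟨by norm_num, by omega, by omega⟩, ?_, ?_, ?_, ?_⟩
  · intro h
    have h2 : (8 : ℤ) ∈ ({2, P - 2, P * (P - 2)} : Set ℤ) := h (by simp)
    simp only [Set.mem_insert_iff, Set.mem_singleton_iff] at h2
    rcases h2 with h2 | h2 | h2
    · norm_num at h2
    · rw [hP8] at h2
      omega
    · omega
  · refine ⟨?_, ![((m + 3 : ℕ) : ℤ), 1, -1], ⟨1, by simp⟩, ?_⟩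
    · intro i
      fin_cases i
      · simp
      · show P - 2 ≠ 0
        omega
      · show P * (P - 2) ≠ 0
        omega
    · have h1 : ((P : ℤ) : ℚ) = (2 : ℚ) ^ (m + 3) := by rw [hP]; push_cast; ring
      have h2 : ((P : ℚ)) ≠ 0 := by
        have : P ≠ 0 := by omega
        exact_mod_cast this
      have h3 : ((P : ℚ) - 2) ≠ 0 := by
        have : P - 2 ≠ 0 := by omega
        exact_mod_cast this
      rw [Fin.prod_univ_three]
      simp only [Matrix.cons_val_zero, Matrix.cons_val_one, Matrix.cons_val_two, Matrix.head_cons,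
        Matrix.tail_cons]
      push_cast
      rw [show ((m : ℤ) + 3) = ((m + 3 : ℕ) : ℤ) by push_cast; ring, zpow_natCast, ← h1]
      rw [zpow_one, zpow_neg, zpow_one]
      field_simp
  · refine ⟨?_, ![0, 2, -1], ⟨1, by simp⟩, ?_⟩
    · intro i
      fin_cases i
      · simp
      · show P - 2 + 1 ≠ 0
        omega
      · show P * (P - 2) + 1 ≠ 0
        omega
    · have h3 : ((P : ℚ) - 2 + 1) ≠ 0 := by
        have : P - 2 + 1 ≠ 0 := by omega
        exact_mod_cast this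
      rw [Fin.prod_univ_three]
      simp only [Matrix.cons_val_zero, Matrix.cons_val_one, Matrix.cons_val_two, Matrix.head_cons,
        Matrix.tail_cons]
      push_cast
      have h4 : (P : ℚ) * (P - 2) + 1 = (P - 2 + 1) ^ 2 := by ring
      rw [h4, one_mul, zpow_neg, zpow_one]
      rw [show ((P : ℚ) - 2 + 1) ^ (2 : ℤ) = ((P : ℚ) - 2 + 1) ^ 2 from by norm_cast]
      exact mul_inv_cancel₀ (pow_ne_zero 2 h3)
  · refine ⟨?_, ![((m + 3 : ℕ) : ℤ), -2, 0], ⟨1, by simp⟩, ?_⟩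
    · intro i
      fin_cases i
      · simp
      · show P - 2 + 2 ≠ 0
        omega
      · show P * (P - 2) + 2 ≠ 0
        omega
    · have h1 : ((P : ℤ) : ℚ) = (2 : ℚ) ^ (m + 3) := by rw [hP]; push_cast; ring
      have h2 : ((P : ℚ)) ≠ 0 := by
        have : P ≠ 0 := by omega
        exact_mod_cast this
      rw [Fin.prod_univ_three]
      simp only [Matrix.cons_val_zero, Matrix.cons_val_one, Matrix.cons_val_two, Matrix.head_cons,
        Matrix.tail_cons]
      push_cast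
      rw [show ((m : ℤ) + 3) = ((m + 3 : ℕ) : ℤ) by push_cast; ring, zpow_natCast, zpow_zero,
        mul_one, sub_add_cancel, show (4 : ℚ) = 2 ^ 2 by norm_num, ← pow_mul, mul_comm 2 (m + 3),
        pow_mul, ← h1, zpow_neg]
      rw [show (P : ℚ) ^ (2 : ℤ) = (P : ℚ) ^ 2 from by norm_cast]
      exact mul_inv_cancel₀ (pow_ne_zero 2 h2)

/-- **There are infinitely many admissible triples** `a < b < c`. -/
theorem result : {t : ℤ × ℤ × ℤ | t.1 < t.2.1 ∧ t.2.1 < t.2.2 ∧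
    Admissible t.1 t.2.1 t.2.2}.Infinite := by
  refine Set.infinite_of_injective_forall_mem
    (f := fun k : ℕ => ((2 : ℤ), (2 : ℤ) ^ (k + 3) - 2, (2 : ℤ) ^ (k + 3) * (2 ^ (k + 3) - 2))) ?_
    (fun k => family (k + 3) (by omega))
  intro k l h
  have h1 : (2 : ℤ) ^ (k + 3) - 2 = 2 ^ (l + 3) - 2 := (Prod.mk.inj (Prod.mk.inj h).2).1
  have h2 : (2 : ℤ) ^ (k + 3) = 2 ^ (l + 3) := by linarith
  have h3 := pow_right_injective₀ (a := (2 : ℤ)) (by norm_num) (by norm_num) h2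
  omega

end Pool.Agent.Results.MP_0e3340_nt.InfinitelyMany
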